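import Mathlib
import Pool.Agent.X102.Lap
import Pool.Agent.X102.LapHol

set_option autoImplicit false

open Filter Topology Set Metric Laplacian InnerProductSpace ComplexConjugate
open Pool.Agent.X102

namespace Pool.Agent.Results.MP_f43ce7_an.MaxStress

/-- `∂Ω` is of class `C²`: near every boundary point `Ω` is `{φ > 0}` for a `C²` function `φ` with
non-vanishing derivative at the point. -/
def C2Boundary (Ω : Set ℂ) : Prop :=
  ∀ p ∈ frontier Ω, ∃ U ∈ 𝓝 p, ∃ φ : ℂ → ℝ, ContDiff ℝ 2 φ ∧ fderiv ℝ φ p ≠ 0 ∧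
    Ω ∩ U = {z | 0 < φ z} ∩ U

/-- `u` is a torsion function of `Ω`: `-Δu = 2` in `Ω`, `u = 0` on `∂Ω`; we ask that `u` is smooth
on the whole plane so that its gradient makes sense on `∂Ω`. -/
def IsTorsion (Ω : Set ℂ) (u : ℂ → ℝ) : Prop :=
  ContDiff ℝ (⊤ : ℕ∞) u ∧ (∀ z ∈ Ω, - Δ u z = 2) ∧ ∀ z ∈ frontier Ω, u z = 0

/-- the boundary arc in the closed first quadrant -/
def Gam (Ω : Set ℂ) : Set ℂ := frontier Ω ∩ {z | 0 ≤ z.re ∧ 0 ≤ z.im}

/-! ### The example -/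

/-- the small parameter -/
noncomputable def ep : ℝ := 1 / 10000

/-- the holomorphic perturbation -/
noncomputable def H (z : ℂ) : ℂ := z ^ 4 + (3 / 10) * z ^ 2 - (1 / 10) * z ^ 6

/-- its derivative -/
noncomputable def H1 (z : ℂ) : ℂ := 4 * z ^ 3 + (6 / 10) * z - (6 / 10) * z ^ 5

/-- its second derivative -/
noncomputable def H2 (z : ℂ) : ℂ := 12 * z ^ 2 + (6 / 10) - 3 * z ^ 4

/-- the torsion function -/
noncomputable def u (z : ℂ) : ℝ := (1 - (z.re ^ 2 + z.im ^ 2)) / 2 - ep * (H z).re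

/-- polynomial in `q = |z|²`, `w = Re z²` -/
noncomputable def h (q w : ℝ) : ℝ :=
  2 * w ^ 2 - q ^ 2 + (3 / 10) * w - (1 / 10) * (4 * w ^ 3 - 3 * q ^ 2 * w)

lemma u_eq (z : ℂ) : u z = (1 - (z.re ^ 2 + z.im ^ 2)) / 2
    - ep * h (z.re ^ 2 + z.im ^ 2) (z.re ^ 2 - z.im ^ 2) := by
  have : (H z).re = h (z.re ^ 2 + z.im ^ 2) (z.re ^ 2 - z.im ^ 2) := by
    have h3 : ((3 : ℂ) / 10) = ((3 / 10 : ℝ) : ℂ) := by push_cast; ring
    have h1 : ((1 : ℂ) / 10) = ((1 / 10 : ℝ) : ℂ) := by push_cast; ring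
    unfold H h
    rw [h3, h1]
    simp only [Complex.sub_re, Complex.add_re, Complex.mul_re, Complex.mul_im, Complex.ofReal_re,
      Complex.ofReal_im, pow_succ, pow_zero, one_mul]
    ring
  rw [u, this]

lemma hasDerivAt_H (z : ℂ) : HasDerivAt H (H1 z) z := by
  unfold H H1
  have h1 := (((hasDerivAt_pow 4 z).add ((hasDerivAt_pow 2 z).const_mul (3 / 10 : ℂ))).sub
    ((hasDerivAt_pow 6 z).const_mul (1 / 10 : ℂ)))
  refine h1.congr_deriv ?_
  norm_num; ring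

lemma hasDerivAt_H1 (z : ℂ) : HasDerivAt H1 (H2 z) z := by
  unfold H1 H2
  have h1 := ((((hasDerivAt_pow 3 z).const_mul (4 : ℂ)).add ((hasDerivAt_id z).const_mul (6 / 10 : ℂ))).sub
    ((hasDerivAt_pow 5 z).const_mul (6 / 10 : ℂ)))
  refine h1.congr_deriv ?_
  norm_num; ring

lemma line1 (z v : ℂ) (t : ℝ) : HasDerivAt (fun s : ℝ => u (z + s • v))
    (-(v.re * (z + t • v).re + v.im * (z + t • v).im) - ep * (v * H1 (z + t • v)).re) t := by
  have hl := hasDerivAt_line (hasDerivAt_H (z + t • v))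
  have hid := hasDerivAt_line (F := fun w => w) (hasDerivAt_id (z + t • v))
  have hr := hasDerivAt_re hid
  have hi := hasDerivAt_im hid
  have hH := (hasDerivAt_re hl).const_mul ep
  have h1 := (((hr.pow 2).add (hi.pow 2)).const_sub 1).div_const 2
  refine (h1.sub hH).congr_deriv ?_
  simp
  ring

lemma line2 (z v : ℂ) (t : ℝ) : HasDerivAt (fun s : ℝ =>
    -(v.re * (z + s • v).re + v.im * (z + s • v).im) - ep * (v * H1 (z + s • v)).re)
    (-(v.re ^ 2 + v.im ^ 2) - ep * (v * (v * H2 (z + t • v))).re) t := by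
  have hl := hasDerivAt_line (hasDerivAt_H1 (z + t • v))
  have hid := hasDerivAt_line (F := fun w => w) (hasDerivAt_id (z + t • v))
  have hr := (hasDerivAt_re hid).const_mul v.re
  have hi := (hasDerivAt_im hid).const_mul v.im
  have hH := (hasDerivAt_re (hl.const_mul v)).const_mul ep
  have h1 := (hr.add hi).neg
  refine (h1.sub hH).congr_deriv ?_
  simp
  ring

lemma contDiff_u {n : WithTop ℕ∞} : ContDiff ℝ n u := by
  unfold u H
  have h1 : ContDiff ℝ n (fun z : ℂ => z.re) := Complex.reCLM.contDiff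
  have h2 : ContDiff ℝ n (fun z : ℂ => z.im) := Complex.imCLM.contDiff
  have h3 : ContDiff ℝ n (fun z : ℂ => z ^ 4 + (3 / 10) * z ^ 2 - (1 / 10) * z ^ 6) := by fun_prop
  have h4 : ContDiff ℝ n (fun z : ℂ => (z ^ 4 + (3 / 10) * z ^ 2 - (1 / 10) * z ^ 6).re) :=
    Complex.reCLM.contDiff.comp h3
  exact ((contDiff_const.sub ((h1.pow 2).add (h2.pow 2))).div_const 2).sub (contDiff_const.mul h4)

lemma laplacian_u (z : ℂ) : - Δ u z = 2 := by
  have key : ∀ e : ℂ, iteratedFDeriv ℝ 2 u z ![e, e]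
      = -(e.re ^ 2 + e.im ^ 2) - ep * (e * (e * H2 (z + (0 : ℝ) • e))).re := by
    intro e
    exact iteratedFDeriv_two_line contDiff_u.contDiffAt
      (Eventually.of_forall fun t => line1 z e t) (line2 z e 0)
  rw [laplacian_eq_iteratedFDeriv_complexPlane]
  simp only [key]
  simp
  ring

lemma norm_H2 {z : ℂ} (hz : ‖z‖ ≤ 2) : ‖H2 z‖ ≤ 100 := by
  unfold H2
  have h1 : ‖(12 : ℂ) * z ^ 2‖ ≤ 48 := by
    rw [norm_mul, norm_pow]
    have : ‖z‖ ^ 2 ≤ 2 ^ 2 := pow_le_pow_left₀ (norm_nonneg _) hz 2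
    simp; linarith
  have h2 : ‖(3 : ℂ) * z ^ 4‖ ≤ 48 := by
    rw [norm_mul, norm_pow]
    have : ‖z‖ ^ 4 ≤ 2 ^ 4 := pow_le_pow_left₀ (norm_nonneg _) hz 4
    simp; linarith
  have h3 : ‖(6 / 10 : ℂ)‖ ≤ 1 := by norm_num
  calc ‖12 * z ^ 2 + (6 / 10) - 3 * z ^ 4‖ ≤ ‖12 * z ^ 2 + (6 / 10)‖ + ‖3 * z ^ 4‖ := norm_sub_le _ _
    _ ≤ ‖12 * z ^ 2‖ + ‖(6 / 10 : ℂ)‖ + ‖3 * z ^ 4‖ := by gcongr; exact norm_add_le _ _
    _ ≤ 100 := by linarith

lemma line2_nonpos {z v : ℂ} (hz : ‖z‖ ≤ 2) :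
    (-(v.re ^ 2 + v.im ^ 2) - ep * (v * (v * H2 z)).re) ≤ 0 := by
  have h1 : |(v * (v * H2 z)).re| ≤ 100 * (v.re ^ 2 + v.im ^ 2) := by
    refine (Complex.abs_re_le_norm _).trans ?_
    have e : v.re ^ 2 + v.im ^ 2 = ‖v‖ * ‖v‖ := by
      rw [← pow_two, ← Complex.normSq_eq_norm_sq, Complex.normSq_apply]; ring
    rw [norm_mul, norm_mul, ← mul_assoc, mul_comm, e]
    exact mul_le_mul_of_nonneg_right (norm_H2 hz) (by positivity)
  have := (abs_le.mp h1).1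
  unfold ep
  nlinarith [sq_nonneg v.re, sq_nonneg v.im]

lemma concave_u : ConcaveOn ℝ (ball (0 : ℂ) 2) u := by
  refine ⟨convex_ball _ _, ?_⟩
  intro x hx y hy a b ha hb hab
  have hmem : ∀ t ∈ Icc (0 : ℝ) 1, ‖x + t • (y - x)‖ ≤ 2 := by
    intro t ht
    have h1 : x + t • (y - x) ∈ ball (0 : ℂ) 2 := by
      have := (convex_ball (0 : ℂ) 2) hx hy (sub_nonneg.mpr ht.2) ht.1 (by ring : (1 - t) + t = 1)
      have e : x + t • (y - x) = (1 - t) • x + t • y := by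
        rw [smul_sub, sub_smul, one_smul]; abel
      rw [e]; exact this
    exact (mem_ball_zero_iff.mp h1).le
  have hconc : ConcaveOn ℝ (Icc (0 : ℝ) 1) (fun t : ℝ => u (x + t • (y - x))) := by
    refine concaveOn_of_hasDerivWithinAt2_nonpos (convex_Icc 0 1) ?_
      (f' := fun t => -((y - x).re * (x + t • (y - x)).re + (y - x).im * (x + t • (y - x)).im)
        - ep * ((y - x) * H1 (x + t • (y - x))).re)
      (f'' := fun t => -((y - x).re ^ 2 + (y - x).im ^ 2)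
        - ep * ((y - x) * ((y - x) * H2 (x + t • (y - x)))).re) ?_ ?_ ?_
    · exact fun t _ => (line1 x (y - x) t).continuousAt.continuousWithinAt
    · exact fun t _ => (line1 x (y - x) t).hasDerivWithinAt
    · exact fun t _ => (line2 x (y - x) t).hasDerivWithinAt
    · intro t ht
      exact line2_nonpos (hmem t (interior_subset ht))
  have h2 := hconc.2 (left_mem_Icc.mpr zero_le_one) (right_mem_Icc.mpr zero_le_one) ha hb hab
  simp only [zero_smul, add_zero, one_smul, smul_eq_mul, mul_zero, mul_one, zero_add,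
    add_sub_cancel] at h2
  have e : x + b • (y - x) = a • x + b • y := by
    have : a = 1 - b := by linarith
    rw [this, smul_sub, sub_smul, one_smul]; abel
  rw [e] at h2
  simpa using h2

lemma u_zero : u 0 = 1 / 2 := by
  rw [u_eq]; simp [h]

lemma ray {z : ℂ} (hz : ‖z‖ < 2) {t : ℝ} (ht : t ∈ Icc (0 : ℝ) 1) :
    t * u z + (1 - t) / 2 ≤ u (t • z) := by
  have h1 := concave_u.2 (mem_ball_zero_iff.mpr hz) (mem_ball_self (by norm_num : (0:ℝ) < 2))
    ht.1 (sub_nonneg.mpr ht.2) (by ring)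
  rw [u_zero] at h1
  simp only [smul_eq_mul, smul_zero, add_zero] at h1
  linarith

lemma nq (z : ℂ) : z.re ^ 2 + z.im ^ 2 = ‖z‖ ^ 2 := by
  rw [← Complex.normSq_eq_norm_sq, Complex.normSq_apply]; ring

lemma h_bound {q w : ℝ} (h0 : 0 ≤ q) (h4 : q ≤ 4) (hw1 : -q ≤ w) (hw2 : w ≤ q) :
    |h q w| ≤ 100 := by
  have a1 : w ^ 2 ≤ q ^ 2 := by nlinarith
  have a2 : q ^ 2 ≤ 16 := by nlinarith
  have a0 := sq_nonneg w
  have aq := sq_nonneg q
  have hwa : |w| ≤ 4 := abs_le.mpr ⟨by linarith, by linarith⟩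
  have a3 : |4 * w ^ 3 - 3 * q ^ 2 * w| ≤ 256 := by
    have e : 4 * w ^ 3 - 3 * q ^ 2 * w = w * (4 * w ^ 2 - 3 * q ^ 2) := by ring
    rw [e, abs_mul]
    have : |4 * w ^ 2 - 3 * q ^ 2| ≤ 64 := abs_le.mpr ⟨by linarith, by linarith⟩
    calc |w| * |4 * w ^ 2 - 3 * q ^ 2| ≤ 4 * 64 := by gcongr
      _ = 256 := by norm_num
  obtain ⟨b1, b2⟩ := abs_le.mp a3
  unfold h
  exact abs_le.mpr ⟨by linarith, by linarith⟩

lemma bd {q w : ℝ} (h0 : 0 ≤ q) (h4 : q ≤ 4) (hw1 : -q ≤ w) (hw2 : w ≤ q)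
    (hu : (1 - q) / 2 - ep * h q w = 0) : 98 / 100 ≤ q ∧ q ≤ 102 / 100 := by
  obtain ⟨b1, b2⟩ := abs_le.mp (h_bound h0 h4 hw1 hw2)
  unfold ep at hu
  constructor <;> linarith

lemma bd' {q w : ℝ} (h0 : 0 ≤ q) (h4 : q ≤ 4) (hw1 : -q ≤ w) (hw2 : w ≤ q)
    (hu : 0 ≤ (1 - q) / 2 - ep * h q w) : q ≤ 102 / 100 := by
  obtain ⟨b1, b2⟩ := abs_le.mp (h_bound h0 h4 hw1 hw2)
  unfold ep at hu
  linarith

/-- the domain -/
def Om : Set ℂ := {z | ‖z‖ < 2 ∧ 0 < u z}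

lemma q_lt {z : ℂ} (hz : ‖z‖ < 2) : z.re ^ 2 + z.im ^ 2 < 4 := by
  rw [nq]; nlinarith [norm_nonneg z]

lemma lt_of_q {z : ℂ} (hz : z.re ^ 2 + z.im ^ 2 < 4) : ‖z‖ < 2 := by
  rw [nq] at hz; nlinarith [norm_nonneg z]

lemma isOpen_Om : IsOpen Om := by
  have h1 : IsOpen {z : ℂ | ‖z‖ < 2} := isOpen_lt continuous_norm continuous_const
  have h2 : IsOpen {z : ℂ | 0 < u z} := isOpen_lt continuous_const (contDiff_u (n := 0)).continuous
  exact h1.inter h2

lemma frontier_eq : frontier Om = {z | ‖z‖ < 2 ∧ u z = 0} := by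
  have hcu : Continuous u := (contDiff_u (n := 0)).continuous
  rw [isOpen_Om.frontier_eq]
  ext z
  constructor
  · rintro ⟨hz, hz2⟩
    have hcl : closure Om ⊆ {z | ‖z‖ ≤ 2 ∧ 0 ≤ u z} := by
      apply closure_minimal
      · rintro z ⟨h1, h2⟩; exact ⟨h1.le, h2.le⟩
      · exact (isClosed_le continuous_norm continuous_const).inter
          (isClosed_le continuous_const hcu)
    obtain ⟨h1, h2⟩ := hcl hz
    have hq4 : z.re ^ 2 + z.im ^ 2 ≤ 4 := by rw [nq]; nlinarith [norm_nonneg z]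
    have hq : z.re ^ 2 + z.im ^ 2 ≤ 102 / 100 := by
      apply bd' (w := z.re ^ 2 - z.im ^ 2) (by positivity) hq4 (by nlinarith [sq_nonneg z.re])
        (by nlinarith [sq_nonneg z.im])
      rw [← u_eq]; exact h2
    have hlt : ‖z‖ < 2 := lt_of_q (by linarith)
    refine ⟨hlt, le_antisymm ?_ h2⟩
    by_contra hc
    exact hz2 ⟨hlt, not_le.mp hc⟩
  · rintro ⟨h1, h2⟩
    refine ⟨?_, fun h3 => h3.2.ne' h2⟩
    have ht : Tendsto (fun t : ℝ => t • z) (𝓝[<] 1) (𝓝 z) := by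
      have : Continuous (fun t : ℝ => t • z) := by fun_prop
      have h3 := this.tendsto 1
      rw [one_smul] at h3
      exact h3.mono_left nhdsWithin_le_nhds
    refine mem_closure_of_tendsto ht ?_
    have : Ioo (0 : ℝ) 1 ∈ 𝓝[<] (1 : ℝ) := Ioo_mem_nhdsLT one_pos
    filter_upwards [this] with t ht
    constructor
    · rw [norm_smul, Real.norm_eq_abs, abs_of_pos ht.1]
      nlinarith [norm_nonneg z, ht.1, ht.2]
    · have := ray h1 ⟨ht.1.le, ht.2.le⟩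
      rw [h2] at this
      linarith [ht.2]

/-- squared norm of the gradient -/
noncomputable def F (q w : ℝ) : ℝ :=
  q + 2 * ep * (4 * (2 * w ^ 2 - q ^ 2) + (6 / 10) * w - (6 / 10) * (4 * w ^ 3 - 3 * q ^ 2 * w))
    + ep ^ 2 * (q * (16 * q ^ 2 + 36 / 100 + 36 / 100 * q ^ 4 + 48 / 10 * w - 48 / 10 * q ^ 2 * w
      - 72 / 100 * (2 * w ^ 2 - q ^ 2)))

lemma hasGradientAt_u (z : ℂ) : HasGradientAt u (-z - (ep : ℂ) * conj (H1 z)) z := by
  rw [hasGradientAt_iff_hasFDerivAt]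
  have hM : HasFDerivAt H (ContinuousLinearMap.mul ℝ ℂ (H1 z)) z := by
    refine ((hasDerivAt_H z).hasFDerivAt.restrictScalars ℝ).congr_fderiv ?_
    ext <;> simp [mul_comm]
  have hr : HasFDerivAt (fun w => (H w).re)
      (Complex.reCLM.comp (ContinuousLinearMap.mul ℝ ℂ (H1 z))) z :=
    Complex.reCLM.hasFDerivAt.comp z hM
  have h1 : HasFDerivAt (fun w : ℂ => w.re) Complex.reCLM z := Complex.reCLM.hasFDerivAt
  have h2 : HasFDerivAt (fun w : ℂ => w.im) Complex.imCLM z := Complex.imCLM.hasFDerivAt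
  have h3 := ((((h1.pow 2).add (h2.pow 2)).const_sub 1).mul_const (1 / 2)).sub (hr.const_mul ep)
  have h4 : u = fun w : ℂ => (1 - (w.re ^ 2 + w.im ^ 2)) * (1 / 2) - ep * (H w).re := by
    ext w; unfold u; ring
  rw [h4]
  refine h3.congr_fderiv ?_
  ext v
  simp [Complex.inner]
  ring

lemma norm_grad (z : ℂ) : ‖gradient u z‖ ^ 2 = F (z.re ^ 2 + z.im ^ 2) (z.re ^ 2 - z.im ^ 2) := by
  rw [(hasGradientAt_u z).gradient, ← nq]
  have e1 : (H1 z).re = 4 * (z.re ^ 3 - 3 * z.re * z.im ^ 2) + 6 / 10 * z.re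
      - 6 / 10 * (z.re ^ 5 - 10 * z.re ^ 3 * z.im ^ 2 + 5 * z.re * z.im ^ 4) := by
    have h3 : ((6 : ℂ) / 10) = ((6 / 10 : ℝ) : ℂ) := by push_cast; ring
    have h1 : (4 : ℂ) = ((4 : ℝ) : ℂ) := by push_cast; ring
    unfold H1
    rw [h3, h1]
    simp only [Complex.sub_re, Complex.add_re, Complex.mul_re, Complex.mul_im, Complex.ofReal_re,
      Complex.ofReal_im, pow_succ, pow_zero, one_mul]
    ring
  have e2 : (H1 z).im = 4 * (3 * z.re ^ 2 * z.im - z.im ^ 3) + 6 / 10 * z.im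
      - 6 / 10 * (5 * z.re ^ 4 * z.im - 10 * z.re ^ 2 * z.im ^ 3 + z.im ^ 5) := by
    have h3 : ((6 : ℂ) / 10) = ((6 / 10 : ℝ) : ℂ) := by push_cast; ring
    have h1 : (4 : ℂ) = ((4 : ℝ) : ℂ) := by push_cast; ring
    unfold H1
    rw [h3, h1]
    simp only [Complex.sub_im, Complex.add_im, Complex.mul_re, Complex.mul_im, Complex.ofReal_re,
      Complex.ofReal_im, pow_succ, pow_zero, one_mul]
    ring
  have e3 : (-z - (ep : ℂ) * conj (H1 z)).re = -z.re - ep * (H1 z).re := by simp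
  have e4 : (-z - (ep : ℂ) * conj (H1 z)).im = -z.im + ep * (H1 z).im := by simp
  rw [e3, e4, e1, e2]
  unfold F
  ring

lemma F_lt {q w q0 : ℝ} (hq : 98 / 100 ≤ q) (hq' : q ≤ 102 / 100) (hq0 : 98 / 100 ≤ q0)
    (hq0' : q0 ≤ 102 / 100) (hw1 : -q ≤ w) (hw2 : w ≤ q)
    (e1 : (1 - q) / 2 - ep * h q w = 0) (e2 : (1 - q0) / 2 - ep * h q0 (-q0) = 0) :
    |q - q0| ≤ 14 * ep * (w + q) ∧ F q w + (1 / 10) * ep * (w + q) ≤ F q0 (-q0) := by
  have hep : (0 : ℝ) < ep := by unfold ep; norm_num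
  set t := w + q with ht
  have ht0 : 0 ≤ t := by linarith
  set D := q - q0 with hD
  have qq : q ^ 2 ≤ 105 / 100 := by nlinarith
  have qq' : 96 / 100 ≤ q ^ 2 := by nlinarith
  have qq0 : q0 ^ 2 ≤ 105 / 100 := by nlinarith
  have ww : w ^ 2 ≤ q ^ 2 := by nlinarith
  have qw : |q * w| ≤ 105 / 100 := by
    rw [abs_le]; constructor <;> nlinarith
  obtain ⟨qw1, qw2⟩ := abs_le.mp qw
  have qp : q * q0 ≤ 105 / 100 := by nlinarith
  have qp' : 0 ≤ q * q0 := by nlinarith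
  set br := 2 * (w - q) + 3 / 10 - 4 / 10 * (w ^ 2 - w * q + q ^ 2) + 3 / 10 * q ^ 2 with hbr
  set fac := q + q0 - 3 / 10 + 1 / 10 * (q ^ 2 + q * q0 + q0 ^ 2) with hfac
  have hfac0 : 0 ≤ fac := by rw [hfac]; nlinarith
  have hbr7 : |br| ≤ 7 := by
    rw [hbr, abs_le]; constructor <;> nlinarith [sq_nonneg w]
  have key1 : D * (1 + 2 * ep * fac) = - (2 * ep * t * br) := by
    have : h q w - h q0 (-q0) = t * br + D * fac := by
      rw [hbr, hfac, ht, hD]; unfold h; ring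
    have h3 : q - q0 = - (2 * ep) * (h q w - h q0 (-q0)) := by linarith
    rw [this] at h3
    rw [← hD] at h3
    linarith
  have hDle : |D| ≤ 14 * ep * t := by
    have h1 : |D| * (1 + 2 * ep * fac) = 2 * ep * t * |br| := by
      have h2 : |D * (1 + 2 * ep * fac)| = |-(2 * ep * t * br)| := by rw [key1]
      rw [abs_mul, abs_neg, abs_mul, abs_of_nonneg (by positivity : 0 ≤ 1 + 2 * ep * fac),
        abs_of_nonneg (by positivity : 0 ≤ 2 * ep * t)] at h2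
      exact h2
    have h2 : |D| ≤ |D| * (1 + 2 * ep * fac) := by
      have : 0 ≤ |D| * (2 * ep * fac) := by positivity
      linarith
    have h3 : 2 * ep * t * |br| ≤ 2 * ep * t * 7 := mul_le_mul_of_nonneg_left hbr7 (by positivity)
    linarith
  refine ⟨hDle, ?_⟩
  set A1 := 3 * (q + q0) - 3 / 10 + 1 / 2 * (q ^ 2 + q * q0 + q0 ^ 2) with hA1
  set B1 := 6 * (q - w) - 3 / 10 + 1 / 2 * q ^ 2 - 2 * (q * w) + 2 * w ^ 2 with hB1
  set A2 := 1528 / 100 * (q ^ 2 + q * q0 + q0 ^ 2) + 36 / 100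
    + 36 / 100 * (q ^ 4 + q ^ 3 * q0 + q ^ 2 * q0 ^ 2 + q * q0 ^ 3 + q0 ^ 4) - 48 / 10 * (q + q0)
    + 48 / 10 * (q ^ 3 + q ^ 2 * q0 + q * q0 ^ 2 + q0 ^ 3) with hA2
  set B2 := q * (-(48 / 10) + 48 / 10 * q ^ 2 + 144 / 100 * (w - q)) with hB2
  have hkey : F q0 (-q0) - F q w = 2 * ep * (t * B1 - D * A1) + ep ^ 2 * (t * B2 - D * A2) := by
    have g1 : q = 1 - 2 * (ep * h q w) := by linarith
    have g2 : q0 = 1 - 2 * (ep * h q0 (-q0)) := by linarith
    have g3 : F q0 (-q0) = F q0 (-q0) + (1 - 2 * (ep * h q0 (-q0)) - q0) := by linarith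
    have g4 : F q w = F q w + (1 - 2 * (ep * h q w) - q) := by linarith
    rw [g3, g4]
    rw [hA1, hB1, hA2, hB2, ht, hD]
    unfold F h
    ring
  have bA1 : |A1| ≤ 8 := by
    rw [hA1, abs_le]; constructor <;> linarith [sq_nonneg q, sq_nonneg q0]
  have bB1 : 17 / 100 ≤ B1 := by
    have e : B1 = 1 / 2 * q ^ 2 - 3 / 10 + (q - w) * (6 - 2 * q) + 2 * (q - w) ^ 2 := by
      rw [hB1]; ring
    have e' : 0 ≤ (q - w) * (6 - 2 * q) := mul_nonneg (sub_nonneg.mpr hw2) (by linarith)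
    have e'' := sq_nonneg (q - w)
    rw [e]
    linarith
  have q3 : q ^ 3 ≤ 108 / 100 := by nlinarith
  have q03 : q0 ^ 3 ≤ 108 / 100 := by nlinarith
  have pq : 0 < q := by linarith
  have pq0 : 0 < q0 := by linarith
  have bA2 : |A2| ≤ 100 := by
    have q2n : 0 ≤ q ^ 2 := by positivity
    have q02n : 0 ≤ q0 ^ 2 := by positivity
    have q3n : 0 ≤ q ^ 3 := by positivity
    have q03n : 0 ≤ q0 ^ 3 := by positivity
    have c1 : q ^ 4 ≤ 2 := by
      have : q ^ 2 * q ^ 2 ≤ 105 / 100 * (105 / 100) := mul_le_mul qq qq q2n (by norm_num)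
      have e : q ^ 4 = q ^ 2 * q ^ 2 := by ring
      rw [e]; linarith
    have c2 : q0 ^ 4 ≤ 2 := by
      have : q0 ^ 2 * q0 ^ 2 ≤ 105 / 100 * (105 / 100) := mul_le_mul qq0 qq0 q02n (by norm_num)
      have e : q0 ^ 4 = q0 ^ 2 * q0 ^ 2 := by ring
      rw [e]; linarith
    have c3 : q ^ 3 * q0 ≤ 2 := by
      have : q ^ 3 * q0 ≤ 108 / 100 * (102 / 100) := mul_le_mul q3 hq0' pq0.le (by norm_num)
      linarith
    have c4 : q ^ 2 * q0 ^ 2 ≤ 2 := by
      have : q ^ 2 * q0 ^ 2 ≤ 105 / 100 * (105 / 100) := mul_le_mul qq qq0 q02n (by norm_num)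
      linarith
    have c5 : q * q0 ^ 3 ≤ 2 := by
      have : q * q0 ^ 3 ≤ 102 / 100 * (108 / 100) := mul_le_mul hq' q03 q03n (by norm_num)
      linarith
    have c6 : q ^ 2 * q0 ≤ 12 / 10 := by
      have : q ^ 2 * q0 ≤ 105 / 100 * (102 / 100) := mul_le_mul qq hq0' pq0.le (by norm_num)
      linarith
    have c7 : q * q0 ^ 2 ≤ 12 / 10 := by
      have : q * q0 ^ 2 ≤ 102 / 100 * (105 / 100) := mul_le_mul hq' qq0 q02n (by norm_num)
      linarith
    have d1 : 0 ≤ q ^ 4 := by positivity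
    have d2 : 0 ≤ q0 ^ 4 := by positivity
    have d3 : 0 ≤ q ^ 3 * q0 := by positivity
    have d4 : 0 ≤ q ^ 2 * q0 ^ 2 := by positivity
    have d5 : 0 ≤ q * q0 ^ 3 := by positivity
    have d6 : 0 ≤ q ^ 2 * q0 := by positivity
    have d7 : 0 ≤ q * q0 ^ 2 := by positivity
    rw [hA2, abs_le]; constructor <;> linarith
  have bB2 : |B2| ≤ 8 := by
    have : |(-(48 / 10) + 48 / 10 * q ^ 2 + 144 / 100 * (w - q))| ≤ 4 := by
      rw [abs_le]; constructor <;> linarith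
    rw [hB2, abs_mul, abs_of_pos pq]
    nlinarith [abs_nonneg (-(48 / 10) + 48 / 10 * q ^ 2 + 144 / 100 * (w - q))]
  have r1 : |D * A1| ≤ 14 * ep * t * 8 := by
    rw [abs_mul]; exact mul_le_mul hDle bA1 (abs_nonneg _) (by positivity)
  have r2 : |D * A2| ≤ 14 * ep * t * 100 := by
    rw [abs_mul]; exact mul_le_mul hDle bA2 (abs_nonneg _) (by positivity)
  have r3 : |t * B2| ≤ t * 8 := by
    rw [abs_mul, abs_of_nonneg ht0]; exact mul_le_mul_of_nonneg_left bB2 ht0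
  have r4 : t * (17 / 100) ≤ t * B1 := mul_le_mul_of_nonneg_left bB1 ht0
  have s1 := (abs_le.mp r1).2
  have s2 := (abs_le.mp r2).2
  have s3 := (abs_le.mp r3).1
  have m1 : 2 * ep * (t * (17 / 100) - 14 * ep * t * 8) ≤ 2 * ep * (t * B1 - D * A1) :=
    mul_le_mul_of_nonneg_left (by linarith) (by positivity)
  have m2 : ep ^ 2 * (-(t * 8) - 14 * ep * t * 100) ≤ ep ^ 2 * (t * B2 - D * A2) :=
    mul_le_mul_of_nonneg_left (by linarith) (by positivity)
  have m3 : (1 / 10) * ep * t ≤ 2 * ep * (t * (17 / 100) - 14 * ep * t * 8)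
      + ep ^ 2 * (-(t * 8) - 14 * ep * t * 100) := by
    have : 2 * ep * (t * (17 / 100) - 14 * ep * t * 8) + ep ^ 2 * (-(t * 8) - 14 * ep * t * 100)
        - (1 / 10) * ep * t = ep * t * (34 / 100 - 1 / 10 - 232 * ep - 1400 * ep ^ 2) := by ring
    have h5 : 0 ≤ ep * t * (34 / 100 - 1 / 10 - 232 * ep - 1400 * ep ^ 2) := by
      apply mul_nonneg (by positivity)
      unfold ep; norm_num
    linarith
  linarith

lemma h_lt_real {q w : ℝ} (hq : 98 / 100 ≤ q) (hq' : q ≤ 102 / 100) (hw1 : -q ≤ w) (hw2 : w < q) :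
    h q w < h q q := by
  have e : h q q - h q w = (q - w) * ((q + w) * (2 - 4 / 10 * w) + 3 / 10 - 1 / 10 * q ^ 2) := by
    unfold h; ring
  have h1 : 0 < (q + w) * (2 - 4 / 10 * w) + 3 / 10 - 1 / 10 * q ^ 2 := by
    have : 0 ≤ (q + w) * (2 - 4 / 10 * w) := mul_nonneg (by linarith) (by linarith)
    nlinarith
  have h2 : 0 < (q - w) * ((q + w) * (2 - 4 / 10 * w) + 3 / 10 - 1 / 10 * q ^ 2) :=
    mul_pos (by linarith) h1
  linarith

lemma h_mid {q w1 w2 : ℝ} (hq' : q ≤ 102 / 100) (hw1 : w1 ≤ q) (hw2 : w2 ≤ q)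
    (hne : w1 ≠ w2) : 2 * h q ((w1 + w2) / 2) < h q w1 + h q w2 := by
  have e : h q w1 + h q w2 - 2 * h q ((w1 + w2) / 2)
      = (w1 - w2) ^ 2 * (1 - 3 / 10 * (w1 + w2)) := by
    unfold h; ring
  have h1 : 0 < (w1 - w2) ^ 2 * (1 - 3 / 10 * (w1 + w2)) :=
    mul_pos (by have := sub_ne_zero.mpr hne; positivity) (by linarith)
  linarith

lemma h_pos_right {q w : ℝ} (hq : 1 ≤ q) (hq' : q ≤ 102 / 100) (hw1 : q - 8 / 100 ≤ w)
    (hw2 : w ≤ q) : 0 < h q w := by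
  have w1 : 92 / 100 ≤ w := by linarith
  have w2 : w ≤ 102 / 100 := by linarith
  have e1 : (846 / 1000 : ℝ) ≤ w ^ 2 := by nlinarith
  have e2 : w ^ 2 ≤ 1041 / 1000 := by nlinarith
  have e3 : q ^ 2 ≤ 1041 / 1000 := by nlinarith
  have e4 : 1 ≤ q ^ 2 := by nlinarith
  have e5 : w * (4 * w ^ 2 - 3 * q ^ 2) ≤ 12 / 10 := by nlinarith
  unfold h
  have : 4 * w ^ 3 - 3 * q ^ 2 * w = w * (4 * w ^ 2 - 3 * q ^ 2) := by ring
  rw [this]
  linarith

lemma h_neg_m {q : ℝ} (hq : 0 < q) : h q (-(7 / 25) * q) < 0 := by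
  have e : h q (-(7 / 25) * q) = - q * ((1 - 2 * 49 / 625) * q + 21 / 250
      + q ^ 2 * (21 / 250 - 4 * 343 / 156250)) := by
    unfold h; ring
  rw [e]
  have h2 : 0 < q ^ 2 := by positivity
  have : 0 < (1 - 2 * 49 / 625) * q + 21 / 250
      + q ^ 2 * (21 / 250 - 4 * 343 / 156250) := by
    norm_num
    linarith
  exact mul_neg_of_neg_of_pos (by linarith) this

lemma w_ge (z : ℂ) : -(z.re ^ 2 + z.im ^ 2) ≤ z.re ^ 2 - z.im ^ 2 := by linarith [sq_nonneg z.re]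

lemma w_le (z : ℂ) : z.re ^ 2 - z.im ^ 2 ≤ z.re ^ 2 + z.im ^ 2 := by linarith [sq_nonneg z.im]

lemma w_lt {z : ℂ} (hz : z.im ≠ 0) : z.re ^ 2 - z.im ^ 2 < z.re ^ 2 + z.im ^ 2 := by
  have : 0 < z.im ^ 2 := by positivity
  linarith

lemma cmp {q w w' : ℝ} (h1 : (1 - q) / 2 - ep * h q w' = 0) (h2 : h q w < h q w') :
    0 < (1 - q) / 2 - ep * h q w := by
  have hep : (0 : ℝ) < ep := by unfold ep; norm_num
  have := mul_lt_mul_of_pos_left h2 hep
  linarith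

lemma le_of_sq_le_sq' {x y : ℝ} (h : x ^ 2 ≤ y ^ 2) (hy : 0 ≤ y) : x ≤ y :=
  le_of_abs_le ((abs_le_of_sq_le_sq h hy))

/-- boundary points are not shortened by a factor -/
lemma ray_unique {z : ℂ} (hz : ‖z‖ < 2) (hu : 0 ≤ u z) {t : ℝ} (ht : t ∈ Ico (0 : ℝ) 1) :
    0 < u (t • z) := by
  have h1 := ray hz ⟨ht.1, ht.2.le⟩
  have := mul_nonneg ht.1 hu
  linarith [ht.2]

/-- from a point inside one reaches the boundary moving outwards -/
lemma outward {z : ℂ} (hz : ‖z‖ < 2) (hq : 98 / 100 ≤ z.re ^ 2 + z.im ^ 2)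
    (hq' : z.re ^ 2 + z.im ^ 2 ≤ 102 / 100) (hu : 0 < u z) :
    ∃ t : ℝ, 1 < t ∧ ‖t • z‖ < 2 ∧ u (t • z) = 0 := by
  have hcu : Continuous u := (contDiff_u (n := 0)).continuous
  have hc : ContinuousOn (fun t : ℝ => u (t • z)) (Icc 1 (3 / 2)) := by
    have : Continuous (fun t : ℝ => t • z) := by fun_prop
    exact (hcu.comp this).continuousOn
  have hnz : ∀ t : ℝ, t ∈ Icc (1 : ℝ) (3 / 2) → ‖t • z‖ < 2 := by
    intro t ht
    apply lt_of_q
    have : (t • z).re ^ 2 + (t • z).im ^ 2 = t ^ 2 * (z.re ^ 2 + z.im ^ 2) := by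
      simp; ring
    rw [this]
    have : t ^ 2 ≤ 9 / 4 := by nlinarith [ht.1, ht.2]
    nlinarith [sq_nonneg t]
  have hneg : u ((3 / 2 : ℝ) • z) < 0 := by
    by_contra hcon
    push Not at hcon
    have h1 := bd' (q := ((3 / 2 : ℝ) • z).re ^ 2 + ((3 / 2 : ℝ) • z).im ^ 2)
      (w := ((3 / 2 : ℝ) • z).re ^ 2 - ((3 / 2 : ℝ) • z).im ^ 2) (by positivity)
      (q_lt (hnz _ ⟨by norm_num, le_rfl⟩)).le (by nlinarith [sq_nonneg ((3 / 2 : ℝ) • z).re])
      (by nlinarith [sq_nonneg ((3 / 2 : ℝ) • z).im]) (by rw [← u_eq]; exact hcon)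
    have : ((3 / 2 : ℝ) • z).re ^ 2 + ((3 / 2 : ℝ) • z).im ^ 2 = 9 / 4 * (z.re ^ 2 + z.im ^ 2) := by
      simp; ring
    rw [this] at h1
    linarith
  have hiv := intermediate_value_Icc' (by norm_num : (1 : ℝ) ≤ 3 / 2) hc
  obtain ⟨t, ht, hut⟩ := hiv ⟨hneg.le, by simpa using hu.le⟩
  simp only at hut
  refine ⟨t, lt_of_le_of_ne ht.1 ?_, hnz t ht, hut⟩
  rintro rfl
  rw [one_smul] at hut
  linarith

/-- data of a boundary point -/
lemma bpt {z : ℂ} (hz : z ∈ frontier Om) :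
    98 / 100 ≤ z.re ^ 2 + z.im ^ 2 ∧ z.re ^ 2 + z.im ^ 2 ≤ 102 / 100 ∧
    -(z.re ^ 2 + z.im ^ 2) ≤ z.re ^ 2 - z.im ^ 2 ∧ z.re ^ 2 - z.im ^ 2 ≤ z.re ^ 2 + z.im ^ 2 ∧
    (1 - (z.re ^ 2 + z.im ^ 2)) / 2 - ep * h (z.re ^ 2 + z.im ^ 2) (z.re ^ 2 - z.im ^ 2) = 0 := by
  rw [frontier_eq] at hz
  have h1 : -(z.re ^ 2 + z.im ^ 2) ≤ z.re ^ 2 - z.im ^ 2 := by nlinarith [sq_nonneg z.re]
  have h2 : z.re ^ 2 - z.im ^ 2 ≤ z.re ^ 2 + z.im ^ 2 := by nlinarith [sq_nonneg z.im]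
  have h3 : (1 - (z.re ^ 2 + z.im ^ 2)) / 2
      - ep * h (z.re ^ 2 + z.im ^ 2) (z.re ^ 2 - z.im ^ 2) = 0 := by
    rw [← u_eq]; exact hz.2
  obtain ⟨h4, h5⟩ := bd (by positivity) (q_lt hz.1).le h1 h2 h3
  exact ⟨h4, h5, h1, h2, h3⟩

/-- a boundary point on each ray -/
lemma exists_on_ray {e : ℂ} (he : e.re ^ 2 + e.im ^ 2 = 1) :
    ∃ t : ℝ, 0 < t ∧ t • e ∈ frontier Om := by
  have hcu : Continuous u := (contDiff_u (n := 0)).continuous
  have hc : ContinuousOn (fun t : ℝ => u (t • e)) (Icc 0 (3 / 2)) := by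
    have : Continuous (fun t : ℝ => t • e) := by fun_prop
    exact (hcu.comp this).continuousOn
  have hsq : ∀ t : ℝ, (t • e).re ^ 2 + (t • e).im ^ 2 = t ^ 2 := by
    intro t
    have : (t • e).re ^ 2 + (t • e).im ^ 2 = t ^ 2 * (e.re ^ 2 + e.im ^ 2) := by simp; ring
    rw [this, he, mul_one]
  have hneg : u ((3 / 2 : ℝ) • e) < 0 := by
    by_contra hcon
    push Not at hcon
    have h1 := bd' (q := ((3 / 2 : ℝ) • e).re ^ 2 + ((3 / 2 : ℝ) • e).im ^ 2)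
      (w := ((3 / 2 : ℝ) • e).re ^ 2 - ((3 / 2 : ℝ) • e).im ^ 2) (by positivity)
      (by rw [hsq]; norm_num) (by nlinarith [sq_nonneg ((3 / 2 : ℝ) • e).re])
      (by nlinarith [sq_nonneg ((3 / 2 : ℝ) • e).im]) (by rw [← u_eq]; exact hcon)
    rw [hsq] at h1
    norm_num at h1
  have hiv := intermediate_value_Icc' (by norm_num : (0 : ℝ) ≤ 3 / 2) hc
  obtain ⟨t, ht, hut⟩ := hiv ⟨hneg.le, by simp [u_zero]⟩
  simp only at hut
  refine ⟨t, lt_of_le_of_ne ht.1 ?_, ?_⟩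
  · rintro rfl
    rw [zero_smul, u_zero] at hut
    norm_num at hut
  · rw [frontier_eq]
    exact ⟨lt_of_q (by rw [hsq]; nlinarith [ht.1, ht.2]), hut⟩

/-- a disproof of both questions -/
theorem result : ∃ (Ω : Set ℂ) (u : ℂ → ℝ) (p xhat xcheck : ℂ),
    IsOpen Ω ∧ Ω.Nonempty ∧ Bornology.IsBounded Ω ∧ Convex ℝ Ω ∧
    (∀ z ∈ Ω, conj z ∈ Ω ∧ -conj z ∈ Ω) ∧ (∀ c r, Ω ≠ ball c r) ∧ C2Boundary Ω ∧
    IsTorsion Ω u ∧
    (xhat ∈ Gam Ω ∧ ∀ z ∈ Gam Ω, z ≠ xhat → ‖z‖ < ‖xhat‖) ∧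
    (xcheck ∈ Gam Ω ∧ ∀ z ∈ Gam Ω, z ≠ xcheck → ‖xcheck‖ < ‖z‖) ∧
    (p ∈ Gam Ω ∧ (∀ z ∈ frontier Ω, ‖gradient u z‖ ≤ ‖gradient u p‖) ∧
      ∀ z ∈ Gam Ω, z ≠ p → ‖gradient u z‖ < ‖gradient u p‖) ∧
    ‖p - xhat‖ < ‖p - xcheck‖ := by
  have hcu : Continuous u := (contDiff_u (n := 0)).continuous
  have hep : (0 : ℝ) < ep := by unfold ep; norm_num
  -- the points
  obtain ⟨a, ha, haf⟩ := exists_on_ray (e := 1) (by simp)
  obtain ⟨b, hb, hbf⟩ := exists_on_ray (e := Complex.I) (by simp)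
  obtain ⟨m, hm, hmf⟩ := exists_on_ray (e := ⟨3 / 5, 4 / 5⟩) (by norm_num)
  have hΓsub : ∀ z ∈ Gam Om, ‖z‖ < 2 ∧ u z = 0 := by
    rintro z ⟨hz, -⟩
    rw [frontier_eq] at hz
    exact hz
  have hbdd : Bornology.IsBounded Om :=
    isBounded_ball.subset (fun z hz => mem_ball_zero_iff.mpr hz.1)
  have hcomp : IsCompact (Gam Om) := by
    have h1 : IsCompact (frontier Om) := by
      refine Metric.isCompact_of_isClosed_isBounded isClosed_frontier ?_
      exact isBounded_closedBall.subset (fun z hz => by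
        rw [frontier_eq] at hz
        exact mem_closedBall_zero_iff.mpr hz.1.le)
    refine h1.inter_right ?_
    exact (isClosed_le continuous_const Complex.continuous_re).inter
      (isClosed_le continuous_const Complex.continuous_im)
  have haG : a • (1 : ℂ) ∈ Gam Om := ⟨haf, by simp [ha.le]⟩
  have hbG : b • Complex.I ∈ Gam Om := ⟨hbf, by simp [hb.le]⟩
  have hmG : m • (⟨3 / 5, 4 / 5⟩ : ℂ) ∈ Gam Om := ⟨hmf, by
    constructor <;> simp <;> positivity⟩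
  obtain ⟨xh, hxh, hmax⟩ := hcomp.exists_isMaxOn ⟨_, haG⟩ continuous_norm.continuousOn
  -- data at `a`, `b`
  obtain ⟨a1, a2, -, -, a3⟩ := bpt haf
  obtain ⟨b1, b2, -, -, b3⟩ := bpt hbf
  obtain ⟨m1, m2, -, -, m3⟩ := bpt hmf
  have ea1 : (a • (1 : ℂ)).re ^ 2 + (a • (1 : ℂ)).im ^ 2 = a ^ 2 := by simp
  have ea2 : (a • (1 : ℂ)).re ^ 2 - (a • (1 : ℂ)).im ^ 2 = a ^ 2 := by simp
  have eb1 : (b • Complex.I).re ^ 2 + (b • Complex.I).im ^ 2 = b ^ 2 := by simp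
  have eb2 : (b • Complex.I).re ^ 2 - (b • Complex.I).im ^ 2 = -b ^ 2 := by simp
  have em1 : (m • (⟨3 / 5, 4 / 5⟩ : ℂ)).re ^ 2 + (m • (⟨3 / 5, 4 / 5⟩ : ℂ)).im ^ 2 = m ^ 2 := by
    simp; ring
  have em2 : (m • (⟨3 / 5, 4 / 5⟩ : ℂ)).re ^ 2 - (m • (⟨3 / 5, 4 / 5⟩ : ℂ)).im ^ 2
      = -(7 / 25) * m ^ 2 := by
    simp; ring
  rw [ea1] at a1 a2
  rw [ea1, ea2] at a3
  rw [eb1] at b1 b2
  rw [eb1, eb2] at b3
  rw [em1] at m1 m2
  rw [em1, em2] at m3
  have na : ‖a • (1 : ℂ)‖ ^ 2 = a ^ 2 := by rw [← nq, ea1]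
  have nb : ‖b • Complex.I‖ ^ 2 = b ^ 2 := by rw [← nq, eb1]
  have nm : ‖m • (⟨3 / 5, 4 / 5⟩ : ℂ)‖ ^ 2 = m ^ 2 := by rw [← nq, em1]
  -- uniqueness of the nearest point
  have hcheck : ∀ z ∈ Gam Om, z ≠ a • (1 : ℂ) → ‖a • (1 : ℂ)‖ < ‖z‖ := by
    intro z hz hne
    by_contra hcon
    push Not at hcon
    obtain ⟨z1, z2, z4, z5, z3⟩ := bpt hz.1
    obtain ⟨hz2, huz⟩ := hΓsub z hz
    have hzpos : 0 < ‖z‖ := by
      rw [nq] at z1
      by_contra h0
      have : ‖z‖ = 0 := le_antisymm (not_lt.mp h0) (norm_nonneg _)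
      rw [this] at z1; norm_num at z1
    set s : ℝ := ‖a • (1 : ℂ)‖ / ‖z‖ with hs
    have hs1 : 1 ≤ s := by rw [hs, one_le_div hzpos]; exact hcon
    have hs0 : 0 < s := by linarith
    set z' : ℂ := s • z with hz'
    have hnz' : ‖z'‖ = ‖a • (1 : ℂ)‖ := by
      rw [hz', norm_smul, Real.norm_eq_abs, abs_of_pos hs0, hs]
      field_simp
    have hz'2 : ‖z'‖ < 2 := by rw [hnz']; exact (hΓsub _ haG).1
    have hback : z = (1 / s) • z' := by
      rw [hz', smul_smul, one_div, inv_mul_cancel₀ hs0.ne', one_smul]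
    have hq' : z'.re ^ 2 + z'.im ^ 2 = a ^ 2 := by rw [nq, hnz', na]
    have hre' : 0 ≤ z'.re := by
      rw [hz', Complex.real_smul, Complex.re_ofReal_mul]; exact mul_nonneg hs0.le hz.2.1
    have him' : 0 ≤ z'.im := by
      rw [hz', Complex.real_smul, Complex.im_ofReal_mul]; exact mul_nonneg hs0.le hz.2.2
    have hu' : 0 ≤ u z' := by
      rw [u_eq, hq']
      rcases eq_or_ne z'.im 0 with h0 | h0
      · have : z'.re ^ 2 - z'.im ^ 2 = a ^ 2 := by rw [← hq', h0]; ring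
        rw [this, a3]
      · have := h_lt_real (q := a ^ 2) (w := z'.re ^ 2 - z'.im ^ 2) a1 a2
          (by rw [← hq']; exact w_ge z') (by rw [← hq']; exact w_lt h0)
        exact (cmp a3 this).le
    rcases hs1.eq_or_lt with h1 | h1
    · -- `s = 1`
      have hzz : z' = z := by rw [hz', ← h1, one_smul]
      rw [hzz] at hq' hu' hre' him'
      rcases eq_or_ne z.im 0 with h0 | h0
      · apply hne
        have h3 : z.re ^ 2 = a ^ 2 := by rw [h0] at hq'; simpa using hq'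
        have h4 : z.re = a := (pow_left_inj₀ hre' ha.le (by norm_num)).mp h3
        apply Complex.ext
        · simp [h4]
        · simp [h0]
      · have := h_lt_real (q := a ^ 2) (w := z.re ^ 2 - z.im ^ 2) a1 a2
          (by rw [← hq']; exact w_ge z) (by rw [← hq']; exact w_lt h0)
        have h5 : 0 < u z := by
          rw [u_eq, hq']; exact cmp a3 this
        linarith
    · have := ray_unique hz'2 hu' (t := 1 / s) ⟨by positivity, by rw [div_lt_one hs0]; exact h1⟩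
      rw [← hback] at this
      linarith
  -- uniqueness of the farthest point
  have hhat : ∀ z ∈ Gam Om, z ≠ xh → ‖z‖ < ‖xh‖ := by
    intro z hz hne
    refine lt_of_le_of_ne (hmax hz) ?_
    intro heq
    obtain ⟨z1, z2, z4, z5, z3⟩ := bpt hz.1
    obtain ⟨x1, x2, x4, x5, x3⟩ := bpt hxh.1
    have hqq : z.re ^ 2 + z.im ^ 2 = xh.re ^ 2 + xh.im ^ 2 := by rw [nq, nq, heq]
    have hwne : z.re ^ 2 - z.im ^ 2 ≠ xh.re ^ 2 - xh.im ^ 2 := by
      intro h1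
      apply hne
      have h2 : z.re ^ 2 = xh.re ^ 2 := by linarith
      have h3 : z.im ^ 2 = xh.im ^ 2 := by linarith
      apply Complex.ext
      · exact (pow_left_inj₀ hz.2.1 hxh.2.1 (by norm_num)).mp h2
      · exact (pow_left_inj₀ hz.2.2 hxh.2.2 (by norm_num)).mp h3
    set q := xh.re ^ 2 + xh.im ^ 2 with hq
    rw [hqq] at z1 z2 z3 z4 z5
    set w1 := z.re ^ 2 - z.im ^ 2 with hw1
    set w2 := xh.re ^ 2 - xh.im ^ 2 with hw2
    have hmid := h_mid x2 z5 x5 hwne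
    set wm := (w1 + w2) / 2 with hwm
    set zm : ℂ := ⟨Real.sqrt ((q + wm) / 2), Real.sqrt ((q - wm) / 2)⟩ with hzm
    have k1 : 0 ≤ (q + wm) / 2 := by linarith
    have k2 : 0 ≤ (q - wm) / 2 := by linarith
    have k3 : zm.re ^ 2 = (q + wm) / 2 := by rw [hzm]; exact Real.sq_sqrt k1
    have k4 : zm.im ^ 2 = (q - wm) / 2 := by rw [hzm]; exact Real.sq_sqrt k2
    have k5 : zm.re ^ 2 + zm.im ^ 2 = q := by rw [k3, k4]; ring
    have k6 : zm.re ^ 2 - zm.im ^ 2 = wm := by rw [k3, k4]; ring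
    have k7 : 0 < u zm := by
      rw [u_eq, k5, k6]
      have := mul_lt_mul_of_pos_left hmid hep
      linarith
    have k8 : ‖zm‖ < 2 := lt_of_q (by rw [k5]; linarith)
    obtain ⟨t, ht1, ht2, ht3⟩ := outward k8 (by rw [k5]; exact x1) (by rw [k5]; exact x2) k7
    have ht0 : 0 < t := by linarith
    have hG : t • zm ∈ Gam Om := by
      refine ⟨?_, ?_, ?_⟩
      · rw [frontier_eq]; exact ⟨ht2, ht3⟩
      · rw [Complex.real_smul, Complex.re_ofReal_mul]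
        exact mul_nonneg ht0.le (Real.sqrt_nonneg _)
      · rw [Complex.real_smul, Complex.im_ofReal_mul]
        exact mul_nonneg ht0.le (Real.sqrt_nonneg _)
    have h9 : ‖t • zm‖ ≤ ‖xh‖ := hmax hG
    rw [norm_smul, Real.norm_eq_abs, abs_of_pos ht0] at h9
    have h10 : ‖zm‖ = ‖xh‖ := by
      have : ‖zm‖ ^ 2 = ‖xh‖ ^ 2 := by rw [← nq, ← nq, k5]
      exact (pow_left_inj₀ (norm_nonneg _) (norm_nonneg _) (by norm_num)).mp this
    have h11 : 0 < ‖xh‖ := by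
      rw [hq, nq] at x1
      by_contra h0
      have : ‖xh‖ = 0 := le_antisymm (not_lt.mp h0) (norm_nonneg _)
      rw [this] at x1; norm_num at x1
    rw [h10] at h9
    have h12 := mul_lt_mul_of_pos_right ht1 h11
    linarith
  -- maximal stress
  have hstress : ∀ z ∈ frontier Om, ‖gradient u z‖ ^ 2
      + (1 / 10) * ep * (2 * z.re ^ 2) ≤ ‖gradient u (b • Complex.I)‖ ^ 2 := by
    intro z hz
    obtain ⟨z1, z2, z4, z5, z3⟩ := bpt hz
    rw [norm_grad, norm_grad, eb1, eb2]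
    have h1 := (F_lt z1 z2 b1 b2 z4 z5 z3 b3).2
    have h2 : z.re ^ 2 - z.im ^ 2 + (z.re ^ 2 + z.im ^ 2) = 2 * z.re ^ 2 := by ring
    rw [h2] at h1
    exact h1
  have hb_unique : ∀ z ∈ Gam Om, z.re = 0 → z = b • Complex.I := by
    intro z hz h0
    obtain ⟨z1, z2, z4, z5, z3⟩ := bpt hz.1
    have h1 := (F_lt z1 z2 b1 b2 z4 z5 z3 b3).1
    rw [h0] at h1
    have h2 : 14 * ep * ((0 : ℝ) ^ 2 - z.im ^ 2 + ((0 : ℝ) ^ 2 + z.im ^ 2)) = 0 := by ring
    rw [h2] at h1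
    have h3 := abs_nonpos_iff.mp h1
    have h4 : z.im ^ 2 = b ^ 2 := by linarith
    apply Complex.ext
    · simp [h0]
    · have := (pow_left_inj₀ hz.2.2 hb.le (by norm_num)).mp h4
      simp [this]
  refine ⟨Om, u, b • Complex.I, xh, a • (1 : ℂ), isOpen_Om, ⟨0, by simp, by rw [u_zero]; norm_num⟩,
    hbdd, ?_, ?_, ?_, ?_, ⟨contDiff_u, fun z _ => laplacian_u z, ?_⟩, ⟨hxh, hhat⟩, ⟨haG, hcheck⟩,
    ⟨hbG, ?_, ?_⟩, ?_⟩
  · -- convex
    intro x hx y hy α β hα hβ hαβ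
    have h1 := concave_u.2 (mem_ball_zero_iff.mpr hx.1) (mem_ball_zero_iff.mpr hy.1) hα hβ hαβ
    have h2 := (convex_ball (0 : ℂ) 2) (mem_ball_zero_iff.mpr hx.1) (mem_ball_zero_iff.mpr hy.1)
      hα hβ hαβ
    refine ⟨mem_ball_zero_iff.mp h2, lt_of_lt_of_le ?_ h1⟩
    simp only [smul_eq_mul]
    rcases hα.eq_or_lt with h3 | h3
    · rw [← h3] at hαβ ⊢
      have : β = 1 := by linarith
      rw [this]; simpa using hy.2
    · have := mul_pos h3 hx.2
      have := mul_nonneg hβ hy.2.le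
      linarith
  · -- symmetry
    rintro z ⟨h1, h2⟩
    refine ⟨⟨by simpa using h1, ?_⟩, ⟨by simpa using h1, ?_⟩⟩
    · rw [u_eq] at h2 ⊢; simpa using h2
    · rw [u_eq] at h2 ⊢; simpa using h2
  · -- not a disk
    intro c r hcr
    have hr : frontier Om ⊆ sphere c r := by
      rw [hcr]; exact frontier_ball_subset_sphere
    have hmem : ∀ z : ℂ, z ∈ frontier Om → -z ∈ frontier Om := by
      intro z hz
      rw [frontier_eq] at hz ⊢
      refine ⟨by simpa using hz.1, ?_⟩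
      have := hz.2
      rw [u_eq] at this ⊢; simpa using this
    have g1 : ∀ z : ℂ, z ∈ frontier Om → (z.re - c.re) ^ 2 + (z.im - c.im) ^ 2 = r ^ 2 := by
      intro z hz
      have := hr hz
      rw [mem_sphere, dist_eq_norm] at this
      rw [← this, ← nq]; simp
    have ga := g1 _ haf
    have ga' := g1 _ (hmem _ haf)
    have gb := g1 _ hbf
    have gb' := g1 _ (hmem _ hbf)
    simp at ga ga' gb gb'
    have hc1 : c.re = 0 := by
      have : a * c.re = 0 := by linarith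
      exact (mul_eq_zero.mp this).resolve_left ha.ne'
    have hc2 : c.im = 0 := by
      have : b * c.im = 0 := by linarith
      exact (mul_eq_zero.mp this).resolve_left hb.ne'
    rw [hc1, hc2] at ga gb
    have h5 : a ^ 2 = b ^ 2 := by linarith
    have h6 := hcheck _ hbG (by
      intro h7
      have := congrArg Complex.re h7
      simp at this
      exact ha.ne' this.symm)
    have h8 : ‖a • (1 : ℂ)‖ ^ 2 < ‖b • Complex.I‖ ^ 2 :=
      pow_lt_pow_left₀ h6 (norm_nonneg _) (by norm_num)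
    rw [na, nb] at h8
    linarith
  · -- `C²` boundary
    intro z hz
    refine ⟨ball 0 2, ?_, u, contDiff_u, ?_, ?_⟩
    · rw [frontier_eq] at hz
      exact isOpen_ball.mem_nhds (mem_ball_zero_iff.mpr hz.1)
    · intro h0
      -- derivative in the direction of `0` is at least `1/2`
      have hz' := hz
      rw [frontier_eq] at hz'
      have hd : HasDerivAt (fun t : ℝ => u (z + t • (-z))) 0 0 := by
        have h1 : HasFDerivAt u (0 : ℂ →L[ℝ] ℝ) (z + (0 : ℝ) • (-z)) := by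
          have := ((contDiff_u (n := 1)).differentiable one_ne_zero z).hasFDerivAt
          rw [h0] at this
          simpa using this
        have h2 : HasDerivAt (fun t : ℝ => z + t • (-z)) (-z) 0 := by
          simpa using ((hasDerivAt_id (0 : ℝ)).smul_const (-z)).const_add z
        have h3 := h1.comp_hasDerivAt (0 : ℝ) h2
        rw [ContinuousLinearMap.zero_apply] at h3
        exact h3
      have hslope := hd.tendsto_slope_zero_right
      have hge : ∀ᶠ t in 𝓝[>] (0 : ℝ), (1 / 2 : ℝ) ≤ t⁻¹ • (u (z + (0 + t) • (-z)) - u (z + (0 : ℝ) • (-z))) := by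
        have : Ioo (0 : ℝ) 1 ∈ 𝓝[>] (0 : ℝ) := Ioo_mem_nhdsGT one_pos
        filter_upwards [this] with t ht
        have h3 := ray hz'.1 (t := 1 - t) ⟨by linarith [ht.2], by linarith [ht.1]⟩
        have h4 : z + (0 + t) • (-z) = (1 - t) • z := by
          rw [zero_add, sub_smul, one_smul, smul_neg]; abel
        rw [h4]
        simp only [zero_smul, add_zero, hz'.2, sub_zero, smul_eq_mul]
        rw [hz'.2] at h3
        rw [inv_mul_eq_div, le_div_iff₀ ht.1]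
        linarith
      have := ge_of_tendsto hslope hge
      norm_num at this
    · ext w
      constructor
      · rintro ⟨h1, h2⟩; exact ⟨h1.2, h2⟩
      · rintro ⟨h1, h2⟩; exact ⟨⟨mem_ball_zero_iff.mp h2, h1⟩, h2⟩
  · intro z hz
    rw [frontier_eq] at hz
    exact hz.2
  · intro z hz
    have h1 := hstress z hz
    have h2 : 0 ≤ (1 / 10) * ep * (2 * z.re ^ 2) := by positivity
    exact le_of_sq_le_sq' (by linarith) (norm_nonneg _)
  · intro z hz hne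
    have h1 := hstress z hz.1
    have h0 : z.re ≠ 0 := fun h0 => hne (hb_unique z hz h0)
    have h2 : 0 < (1 / 10) * ep * (2 * z.re ^ 2) := by positivity
    exact lt_of_pow_lt_pow_left₀ 2 (norm_nonneg _) (by linarith)
  · -- distances
    obtain ⟨x1, x2, x4, x5, x3⟩ := bpt hxh.1
    have hq1 : m ^ 2 ≤ xh.re ^ 2 + xh.im ^ 2 := by
      rw [nq, ← nm]
      exact pow_le_pow_left₀ (norm_nonneg _) (hmax hmG) 2
    have hm1 : 1 < m ^ 2 := by
      by_contra hcon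
      push Not at hcon
      have h1 := h_neg_m (q := m ^ 2) (by positivity)
      have h2 := mul_neg_of_pos_of_neg hep h1
      linarith
    have hxq : 1 < xh.re ^ 2 + xh.im ^ 2 := by linarith
    have hxh2 : h (xh.re ^ 2 + xh.im ^ 2) (xh.re ^ 2 - xh.im ^ 2) < 0 := by
      by_contra hcon
      push Not at hcon
      have := mul_nonneg hep.le hcon
      linarith
    have hy : 4 / 100 < xh.im ^ 2 := by
      by_contra hcon
      push Not at hcon
      have := h_pos_right (q := xh.re ^ 2 + xh.im ^ 2) (w := xh.re ^ 2 - xh.im ^ 2) hxq.le x2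
        (by linarith) x5
      linarith
    have hy2 : 2 / 10 < xh.im := by
      exact lt_of_pow_lt_pow_left₀ 2 hxh.2.2 (by norm_num; linarith)
    have hb2 : 98 / 100 ≤ b := by
      apply le_of_sq_le_sq' _ hb.le
      norm_num; linarith
    have e1 : ‖b • Complex.I - xh‖ ^ 2 = xh.re ^ 2 + (b - xh.im) ^ 2 := by
      rw [← nq]; simp
    have e2 : ‖b • Complex.I - a • (1 : ℂ)‖ ^ 2 = a ^ 2 + b ^ 2 := by
      rw [← nq]; simp
    apply lt_of_pow_lt_pow_left₀ 2 (norm_nonneg _)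
    rw [e1, e2]
    have e3 : 98 / 100 * (2 / 10) ≤ b * xh.im := mul_le_mul hb2 hy2.le (by norm_num) hb.le
    have e4 : xh.re ^ 2 + (b - xh.im) ^ 2 = xh.re ^ 2 + xh.im ^ 2 - 2 * (b * xh.im) + b ^ 2 := by ring
    rw [e4]
    linarith

end Pool.Agent.Results.MP_f43ce7_an.MaxStress
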